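import Pool.Agent.Run7.h812.Iso.Alg

/-!
# MP_c850b7_lc, Q1: finitely generated isotypic algebras need not be isomorphic

Signatures are first-order languages without relation symbols.  A variety is the class of all
algebras of the signature that satisfy a set of identities.  The type of a point `μ : X → H` is
the set of all first-order formulas with free variables in `X` that hold in `H` at `μ`, and two
algebras are isotypic if for every finite `X` the same types of points `X → H` are realized in
both of them.

The example: the signature has countably many unary operation symbols `par`, `col`,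
`ch 0`, `ch 1`, …, the identities are `par (ch i x) = x`, and the two algebras have the carrier
`List ℕ × ℕ`.  The shift `(w, m) ↦ (w, m + 1)` is an elementary embedding of each of the two
algebras into the other one: a permutation swaps the subtree of the vertices `(w, 0)` with the
subtree of the `j`-th child of `([], 1)`, and it commutes with all the operations but `ch j`.
-/

namespace Pool.Agent.Results.MP_c850b7_lc.IsotypicNotIsomorphic

open FirstOrder FirstOrder.Language Run7.h812.Iso

/-- The algebra `H` satisfies all the identities in `E`. -/
def InVariety {L : Language.{0, 0}} (E : Set (L.Term ℕ × L.Term ℕ)) (H : Type)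
    [L.Structure H] : Prop :=
  ∀ p ∈ E, ∀ v : ℕ → H, p.1.realize v = p.2.realize v

/-- The identities `par (ch i x) = x`. -/
def Ids : Set (UL.Term ℕ × UL.Term ℕ) :=
  Set.range fun i : ℕ => (fpar.apply₁ ((fch i).apply₁ (Term.var 0)), Term.var 0)

theorem inVariety (ε : Bool) : InVariety Ids (Alg ε) := by
  rintro _ ⟨i, rfl⟩ v
  rfl

theorem fg (ε : Bool) : Structure.FG UL (Alg ε) :=
  Structure.fg_def.2 (Substructure.fg_def.2 ⟨_, Set.finite_singleton _, closure_eq ε⟩)

/-- **Answer to MP_c850b7_lc Q1 (negative).**  There are a signature `L` (all of whose operation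
symbols are unary), a variety of `L`-algebras, given by a set `E` of identities, and two
one-generated algebras `H₁`, `H₂` in it that are isotypic and not isomorphic. -/
theorem result :
    ∃ (L : Language.{0, 0}) (E : Set (L.Term ℕ × L.Term ℕ)) (H₁ H₂ : Type)
      (_ : L.Structure H₁) (_ : L.Structure H₂),
      L.IsAlgebraic ∧ (∀ n, n ≠ 1 → IsEmpty (L.Functions n)) ∧
      InVariety E H₁ ∧ InVariety E H₂ ∧
      Structure.FG L H₁ ∧ Structure.FG L H₂ ∧
      (∃ a : H₁, Substructure.closure L {a} = ⊤) ∧
      (∃ a : H₂, Substructure.closure L {a} = ⊤) ∧
      Isotypic L H₁ H₂ ∧ IsEmpty (H₁ ≃[L] H₂) := by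
  refine ⟨UL, Ids, Alg false, Alg true, inferInstance, inferInstance, inferInstance, ?_,
    inVariety _, inVariety _, fg _, fg _, ⟨_, closure_eq false⟩, ⟨_, closure_eq true⟩,
    isotypic, not_iso⟩
  intro n hn
  refine ⟨fun f => ?_⟩
  cases (f : Fn n) <;> exact hn rfl

end Pool.Agent.Results.MP_c850b7_lc.IsotypicNotIsomorphic
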